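import Pool.Agent.N589.LL.Tasks

/-!
# Smooth functions on `ℙ¹(F)`: periodicity, finite range, generation by indicators of balls
-/

open scoped WithZero MatrixGroups
open OnePoint

noncomputable section

namespace N999LL

open N589LL

section act

variable {F : Type} [Field F]

lemma P1_one (φ : OnePoint F → ℂ) : P1rep F 1 φ = φ := by rw [map_one]; rfl

lemma P1_mul (g h : GL (Fin 2) F) (φ : OnePoint F → ℂ) :
    P1rep F (g * h) φ = P1rep F g (P1rep F h φ) := by rw [map_mul]; rfl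

lemma P1_upr_coe (y x : F) (φ : OnePoint F → ℂ) :
    P1rep F (upr y) φ (x : OnePoint F) = φ ((x - y : F) : OnePoint F) := by
  classical
  change φ ((upr y)⁻¹ • (x : OnePoint F)) = _
  rw [smul_some_eq_ite]
  have h10 : ((upr y)⁻¹ : GL (Fin 2) F) 1 0 = 0 := rfl
  have h11 : ((upr y)⁻¹ : GL (Fin 2) F) 1 1 = 1 := rfl
  have h00 : ((upr y)⁻¹ : GL (Fin 2) F) 0 0 = 1 := rfl
  have h01 : ((upr y)⁻¹ : GL (Fin 2) F) 0 1 = -y := rfl
  rw [h10, h11, h00, h01]
  simp [sub_eq_add_neg]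

lemma P1_upr_inf (y : F) (φ : OnePoint F → ℂ) : P1rep F (upr y) φ ∞ = φ ∞ := by
  classical
  change φ ((upr y)⁻¹ • (∞ : OnePoint F)) = _
  rw [smul_infty_eq_ite]
  have h10 : ((upr y)⁻¹ : GL (Fin 2) F) 1 0 = 0 := rfl
  rw [h10]
  simp

lemma P1_dg_coe (a : Fˣ) (x : F) (φ : OnePoint F → ℂ) :
    P1rep F (dg a 1) φ (x : OnePoint F) = φ (((a : F)⁻¹ * x : F) : OnePoint F) := by
  classical
  change φ ((dg a 1)⁻¹ • (x : OnePoint F)) = _
  rw [smul_some_eq_ite]
  have h10 : ((dg a 1)⁻¹ : GL (Fin 2) F) 1 0 = 0 := rfl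
  have h11 : ((dg a 1)⁻¹ : GL (Fin 2) F) 1 1 = 1 := by
    change ((1⁻¹ : Fˣ) : F) = 1
    simp
  have h00 : ((dg a 1)⁻¹ : GL (Fin 2) F) 0 0 = (a : F)⁻¹ := by
    change ((a⁻¹ : Fˣ) : F) = _
    simp
  have h01 : ((dg a 1)⁻¹ : GL (Fin 2) F) 0 1 = 0 := by
    change -((a⁻¹ : Fˣ) : F) * 0 * ((1⁻¹ : Fˣ) : F) = 0
    simp
  rw [h10, h11, h00, h01]
  simp

lemma P1_dg_inf (a : Fˣ) (φ : OnePoint F → ℂ) : P1rep F (dg a 1) φ ∞ = φ ∞ := by
  classical
  change φ ((dg a 1)⁻¹ • (∞ : OnePoint F)) = _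
  rw [smul_infty_eq_ite]
  have h10 : ((dg a 1)⁻¹ : GL (Fin 2) F) 1 0 = 0 := rfl
  rw [h10]
  simp

lemma P1_wm_zero (φ : OnePoint F → ℂ) : P1rep F wm φ ((0 : F) : OnePoint F) = φ ∞ := by
  classical
  change φ ((wm : GL (Fin 2) F)⁻¹ • ((0 : F) : OnePoint F)) = _
  rw [smul_some_eq_ite]
  have h10 : ((wm : GL (Fin 2) F)⁻¹ : GL (Fin 2) F) 1 0 = 1 := rfl
  have h11 : ((wm : GL (Fin 2) F)⁻¹ : GL (Fin 2) F) 1 1 = 0 := rfl
  rw [h10, h11]
  simp

lemma P1_wm_inf (φ : OnePoint F → ℂ) : P1rep F wm φ ∞ = φ ((0 : F) : OnePoint F) := by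
  classical
  change φ ((wm : GL (Fin 2) F)⁻¹ • (∞ : OnePoint F)) = _
  rw [smul_infty_eq_ite]
  have h10 : ((wm : GL (Fin 2) F)⁻¹ : GL (Fin 2) F) 1 0 = 1 := rfl
  have h00 : ((wm : GL (Fin 2) F)⁻¹ : GL (Fin 2) F) 0 0 = 0 := rfl
  rw [h10, h00]
  simp

lemma P1_wm_coe {x : F} (hx : x ≠ 0) (φ : OnePoint F → ℂ) :
    P1rep F wm φ (x : OnePoint F) = φ ((x⁻¹ : F) : OnePoint F) := by
  classical
  change φ ((wm : GL (Fin 2) F)⁻¹ • (x : OnePoint F)) = _
  rw [smul_some_eq_ite]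
  have h10 : ((wm : GL (Fin 2) F)⁻¹ : GL (Fin 2) F) 1 0 = 1 := rfl
  have h11 : ((wm : GL (Fin 2) F)⁻¹ : GL (Fin 2) F) 1 1 = 0 := rfl
  have h00 : ((wm : GL (Fin 2) F)⁻¹ : GL (Fin 2) F) 0 0 = 0 := rfl
  have h01 : ((wm : GL (Fin 2) F)⁻¹ : GL (Fin 2) F) 0 1 = 1 := rfl
  rw [h10, h11, h00, h01]
  simp [hx]

lemma P1_lwr_inf {c : F} (hc : c ≠ 0) (φ : OnePoint F → ℂ) :
    P1rep F (lwr c) φ ∞ = φ ((-c⁻¹ : F) : OnePoint F) := by
  classical
  change φ ((lwr c)⁻¹ • (∞ : OnePoint F)) = _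
  rw [smul_infty_eq_ite]
  have h10 : ((lwr c)⁻¹ : GL (Fin 2) F) 1 0 = -c := rfl
  have h00 : ((lwr c)⁻¹ : GL (Fin 2) F) 0 0 = 1 := rfl
  rw [h10, h00, if_neg (neg_ne_zero.2 hc)]
  congr 2
  field_simp

lemma P1_lwr_coe {c x : F} (h : 1 - c * x ≠ 0) (φ : OnePoint F → ℂ) :
    P1rep F (lwr c) φ (x : OnePoint F) = φ ((x / (1 - c * x) : F) : OnePoint F) := by
  classical
  change φ ((lwr c)⁻¹ • (x : OnePoint F)) = _
  rw [smul_some_eq_ite]
  have h10 : ((lwr c)⁻¹ : GL (Fin 2) F) 1 0 = -c := rfl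
  have h11 : ((lwr c)⁻¹ : GL (Fin 2) F) 1 1 = 1 := rfl
  have h00 : ((lwr c)⁻¹ : GL (Fin 2) F) 0 0 = 1 := rfl
  have h01 : ((lwr c)⁻¹ : GL (Fin 2) F) 0 1 = 0 := rfl
  have e : -c * x + 1 = 1 - c * x := by ring
  rw [h10, h11, h00, h01, e, if_neg h]
  simp

lemma P1_lwr_pole {c x : F} (h : 1 - c * x = 0) (φ : OnePoint F → ℂ) :
    P1rep F (lwr c) φ (x : OnePoint F) = φ ∞ := by
  classical
  change φ ((lwr c)⁻¹ • (x : OnePoint F)) = _
  rw [smul_some_eq_ite]
  have h10 : ((lwr c)⁻¹ : GL (Fin 2) F) 1 0 = -c := rfl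
  have h11 : ((lwr c)⁻¹ : GL (Fin 2) F) 1 1 = 1 := rfl
  have e : -c * x + 1 = 1 - c * x := by ring
  rw [h10, h11, e, if_pos h]

end act

section val

variable {F : Type} [Field F] (v : Valuation F ℤᵐ⁰)

lemma exp_neg_le_one (m : ℕ) : (WithZero.exp (-(m : ℤ)) : ℤᵐ⁰) ≤ 1 := by
  rw [← WithZero.exp_zero, WithZero.exp_le_exp]; omega

lemma upr_mem_Km {m : ℕ} {y : F} (hy : v y ≤ WithZero.exp (-(m : ℤ))) : upr y ∈ Km v m := by
  have hy1 : v y ≤ 1 := hy.trans (exp_neg_le_one m)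
  refine ⟨⟨fun i j => ?_, fun i j => ?_⟩, fun i j => ?_⟩
  · fin_cases i <;> fin_cases j
    · change v (1 : F) ≤ 1; simp
    · exact hy1
    · change v (0 : F) ≤ 1; simp
    · change v (1 : F) ≤ 1; simp
  · fin_cases i <;> fin_cases j
    · change v (1 : F) ≤ 1; simp
    · change v (-y) ≤ 1; rwa [Valuation.map_neg]
    · change v (0 : F) ≤ 1; simp
    · change v (1 : F) ≤ 1; simp
  · fin_cases i <;> fin_cases j
    · change v ((1 : F) - (1 : Matrix (Fin 2) (Fin 2) F) 0 0) ≤ _; simp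
    · change v (y - (1 : Matrix (Fin 2) (Fin 2) F) 0 1) ≤ _; simpa using hy
    · change v ((0 : F) - (1 : Matrix (Fin 2) (Fin 2) F) 1 0) ≤ _; simp
    · change v ((1 : F) - (1 : Matrix (Fin 2) (Fin 2) F) 1 1) ≤ _; simp

lemma lwr_mem_Km {m : ℕ} {y : F} (hy : v y ≤ WithZero.exp (-(m : ℤ))) : lwr y ∈ Km v m := by
  have hy1 : v y ≤ 1 := hy.trans (exp_neg_le_one m)
  refine ⟨⟨fun i j => ?_, fun i j => ?_⟩, fun i j => ?_⟩
  · fin_cases i <;> fin_cases j
    · change v (1 : F) ≤ 1; simp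
    · change v (0 : F) ≤ 1; simp
    · exact hy1
    · change v (1 : F) ≤ 1; simp
  · fin_cases i <;> fin_cases j
    · change v (1 : F) ≤ 1; simp
    · change v (0 : F) ≤ 1; simp
    · change v (-y) ≤ 1; rwa [Valuation.map_neg]
    · change v (1 : F) ≤ 1; simp
  · fin_cases i <;> fin_cases j
    · change v ((1 : F) - (1 : Matrix (Fin 2) (Fin 2) F) 0 0) ≤ _; simp
    · change v ((0 : F) - (1 : Matrix (Fin 2) (Fin 2) F) 0 1) ≤ _; simp
    · change v (y - (1 : Matrix (Fin 2) (Fin 2) F) 1 0) ≤ _; simpa using hy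
    · change v ((1 : F) - (1 : Matrix (Fin 2) (Fin 2) F) 1 1) ≤ _; simp

/-- Periodicity of `Km m`-invariant functions on `F`. -/
lemma Km_periodic {m : ℕ} {φ : OnePoint F → ℂ} (h : ∀ k ∈ Km v m, P1rep F k φ = φ)
    (x y : F) (hy : v y ≤ WithZero.exp (-(m : ℤ))) :
    φ ((x + y : F) : OnePoint F) = φ (x : OnePoint F) := by
  have h1 := h (upr (-y)) (upr_mem_Km v (by rwa [Valuation.map_neg]))
  have h2 := congrFun h1 (x : OnePoint F)
  rw [P1_upr_coe, sub_neg_eq_add] at h2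
  exact h2

/-- A `Km m`-invariant function is constant near `∞`. -/
lemma Km_inf {m : ℕ} {φ : OnePoint F → ℂ} (h : ∀ k ∈ Km v m, P1rep F k φ = φ)
    (x : F) (hx : WithZero.exp (m : ℤ) ≤ v x) : φ (x : OnePoint F) = φ ∞ := by
  have hx0 : x ≠ 0 := by
    rintro rfl
    rw [map_zero] at hx
    exact absurd hx (not_le.2 (WithZero.exp_pos))
  have hc : -x⁻¹ ≠ 0 := neg_ne_zero.2 (inv_ne_zero hx0)
  have h1 := h (lwr (-x⁻¹)) (lwr_mem_Km v (by
    rw [Valuation.map_neg, map_inv₀, WithZero.exp_neg]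
    exact inv_anti₀ WithZero.exp_pos hx))
  have h2 := congrFun h1 ∞
  rw [P1_lwr_inf hc] at h2
  rw [← h2]
  congr 2
  field_simp

end val

section balls

variable {F : Type} [Field F] (v : Valuation F ℤᵐ⁰) (ϖ : Fˣ)

lemma lt_exp_succ {x : ℤᵐ⁰} {k : ℤ} : x < WithZero.exp (k + 1) ↔ x ≤ WithZero.exp k := by
  rw [WithZero.exp_add]; exact WithZero.lt_mul_exp_iff_le WithZero.exp_ne_zero

variable {v ϖ}

lemma v_zpow (h : Loc2 v ϖ) (k : ℤ) : v ((ϖ ^ (-k) : Fˣ) : F) = WithZero.exp k := by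
  rw [Units.val_zpow_eq_zpow_val, map_zpow₀, h.1, ← WithZero.exp_zsmul]
  congr 1
  simp

lemma v_two (h : Loc2 v ϖ) : v (2 : F) < 1 := by
  have h1 : v (2 : F) ≤ 1 := by
    have e : (2 : F) = 1 + 1 := by norm_num
    rw [e]
    refine (v.map_add _ _).trans (max_le ?_ ?_) <;> simp
  rcases h.2 2 h1 with h2 | h2
  · exact h2
  · have e : (2 : F) - 1 = 1 := by norm_num
    rw [e, map_one] at h2
    exact absurd h2 (lt_irrefl _)

lemma split (h : Loc2 v ϖ) {x : F} {k : ℤ} (hx : v x ≤ WithZero.exp (k + 1)) :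
    v x ≤ WithZero.exp k ∨ v (x - ((ϖ ^ (-(k + 1)) : Fˣ) : F)) ≤ WithZero.exp k := by
  set s : F := ((ϖ ^ (-(k + 1)) : Fˣ) : F) with hs
  have hvs : v s = WithZero.exp (k + 1) := v_zpow h (k + 1)
  have hs0 : s ≠ 0 := Units.ne_zero _
  have hy : v (x / s) ≤ 1 := by
    rw [map_div₀, hvs]
    exact div_le_one_of_le₀ hx zero_le
  rcases h.2 _ hy with h1 | h1
  · left
    rw [map_div₀, hvs, div_lt_one₀ WithZero.exp_pos] at h1
    exact lt_exp_succ.1 h1
  · right
    have e : x - s = (x / s - 1) * s := by field_simp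
    rw [e, map_mul, hvs, ← lt_exp_succ]
    exact mul_lt_of_lt_one_left WithZero.exp_pos h1

lemma finite_reps (h : Loc2 v ϖ) (k : ℤ) : ∀ (n : ℕ) (a : F), ∃ R : Finset F, ∀ x : F,
    v (x - a) ≤ WithZero.exp (k + n) → ∃ r ∈ R, v (x - r) ≤ WithZero.exp k := by
  classical
  intro n
  induction n with
  | zero =>
    intro a
    exact ⟨{a}, fun x hx => ⟨a, by simp, by simpa using hx⟩⟩
  | succ n ih =>
    intro a
    obtain ⟨R1, hR1⟩ := ih a
    obtain ⟨R2, hR2⟩ := ih (a + ((ϖ ^ (-((k + n) + 1)) : Fˣ) : F))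
    refine ⟨R1 ∪ R2, fun x hx => ?_⟩
    have hx' : v (x - a) ≤ WithZero.exp ((k + n) + 1) := by
      have e : k + ((n + 1 : ℕ) : ℤ) = (k + n) + 1 := by push_cast; ring
      rwa [e] at hx
    rcases split h hx' with h1 | h1
    · obtain ⟨r, hr, hr'⟩ := hR1 x h1
      exact ⟨r, Finset.mem_union_left _ hr, hr'⟩
    · rw [sub_sub] at h1
      obtain ⟨r, hr, hr'⟩ := hR2 x h1
      exact ⟨r, Finset.mem_union_right _ hr, hr'⟩

/-- A finite set of points determining the `Km m`-invariant functions on `ℙ¹(F)`. -/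
lemma Km_reps (h : Loc2 v ϖ) (m : ℕ) : ∃ S : Finset (OnePoint F), ∀ p : OnePoint F, ∃ r ∈ S,
    ∀ φ : OnePoint F → ℂ, (∀ k ∈ Km v m, P1rep F k φ = φ) → φ p = φ r := by
  classical
  obtain ⟨R, hR⟩ := finite_reps h (-(m : ℤ)) (2 * m) 0
  refine ⟨insert ∞ (R.image (fun x : F => (x : OnePoint F))), fun p => ?_⟩
  induction p using OnePoint.rec with
  | infty => exact ⟨∞, by simp, fun _ _ => rfl⟩
  | coe x =>
    by_cases hx : WithZero.exp (m : ℤ) ≤ v x
    · exact ⟨∞, by simp, fun φ hφ => Km_inf v hφ x hx⟩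
    · obtain ⟨r, hr, hr'⟩ := hR x (by
        rw [sub_zero]
        refine (not_le.1 hx).le.trans ?_
        rw [WithZero.exp_le_exp]; push_cast; omega)
      refine ⟨(r : OnePoint F), Finset.mem_insert_of_mem (Finset.mem_image_of_mem _ hr),
        fun φ hφ => ?_⟩
      have := Km_periodic v hφ r (x - r) hr'
      rw [add_sub_cancel] at this
      exact this

lemma finite_range (h : Loc2 v ϖ) {φ : OnePoint F → ℂ} (hφ : φ ∈ P1smooth v) :
    (Set.range φ).Finite := by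
  obtain ⟨m, hm⟩ := hφ
  obtain ⟨S, hS⟩ := Km_reps h m
  refine (S.finite_toSet.image φ).subset ?_
  rintro _ ⟨p, rfl⟩
  obtain ⟨r, hr, hr'⟩ := hS p
  exact ⟨r, hr, (hr' φ hm).symm⟩

open Classical in
/-- Indicator function of the ball `{v (x - a) ≤ exp k}`. -/
def bInd (v : Valuation F ℤᵐ⁰) (a : F) (k : ℤ) : OnePoint F → ℂ :=
  fun x => x.elim 0 (fun y => if v (y - a) ≤ WithZero.exp k then 1 else 0)

@[simp] lemma bInd_inf (a : F) (k : ℤ) : bInd v a k ∞ = 0 := rfl

open Classical in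
lemma bInd_coe (a x : F) (k : ℤ) :
    bInd v a k (x : OnePoint F) = if v (x - a) ≤ WithZero.exp k then 1 else 0 := rfl

lemma bInd_pos {a x : F} {k : ℤ} (h : v (x - a) ≤ WithZero.exp k) :
    bInd v a k (x : OnePoint F) = 1 := by
  rw [bInd_coe, if_pos h]

lemma bInd_neg {a x : F} {k : ℤ} (h : ¬ v (x - a) ≤ WithZero.exp k) :
    bInd v a k (x : OnePoint F) = 0 := by
  rw [bInd_coe, if_neg h]

lemma ball_add {a x y : F} {k : WithZero (Multiplicative ℤ)} (hy : v y ≤ k) :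
    v (x + y - a) ≤ k ↔ v (x - a) ≤ k := by
  constructor
  · intro h1
    have e : x - a = (x + y - a) - y := by ring
    rw [e]
    exact (v.map_sub _ _).trans (max_le h1 hy)
  · intro h1
    have e : x + y - a = (x - a) + y := by ring
    rw [e]
    exact (v.map_add _ _).trans (max_le h1 hy)

lemma bInd_periodic {a : F} {k : ℤ} (x y : F) (hy : v y ≤ WithZero.exp k) :
    bInd v a k ((x + y : F) : OnePoint F) = bInd v a k (x : OnePoint F) := by
  rw [bInd_coe, bInd_coe]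
  simp only [ball_add hy]

lemma bInd_upr (a : F) (k : ℤ) : P1rep F (upr a) (bInd v 0 k) = bInd v a k := by
  funext x
  induction x using OnePoint.rec with
  | infty => rw [P1_upr_inf]; rfl
  | coe x => rw [P1_upr_coe, bInd_coe, bInd_coe, sub_zero]

lemma bInd_dg (h : Loc2 v ϖ) (m k : ℤ) :
    P1rep F (dg (ϖ ^ (-(k - m))) 1) (bInd v 0 m) = bInd v 0 k := by
  funext x
  induction x using OnePoint.rec with
  | infty => rw [P1_dg_inf]; rfl
  | coe x =>
    rw [P1_dg_coe, bInd_coe, bInd_coe, sub_zero, sub_zero]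
    have e : v ((((ϖ ^ (-(k - m)) : Fˣ) : F))⁻¹ * x) ≤ WithZero.exp m ↔
        v x ≤ WithZero.exp k := by
      rw [map_mul, map_inv₀, v_zpow h, inv_mul_le_iff₀ WithZero.exp_pos, ← WithZero.exp_add]
      have e2 : k - m + m = k := by ring
      rw [e2]
    simp only [e]

/-- Functions on `F` with bounded support, periodic under a ball, are generated by the indicator
functions of balls. -/
lemma gen (h : Loc2 v ϖ) (W : Submodule ℂ (OnePoint F → ℂ)) (hW : ∀ a k, bInd v a k ∈ W) (k : ℤ) :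
    ∀ (n : ℕ) (a : F) (f : OnePoint F → ℂ), f ∞ = 0 →
      (∀ x y : F, v y ≤ WithZero.exp k → f ((x + y : F) : OnePoint F) = f (x : OnePoint F)) →
      (∀ x : F, ¬ v (x - a) ≤ WithZero.exp (k + n) → f (x : OnePoint F) = 0) → f ∈ W := by
  intro n
  induction n with
  | zero =>
    intro a f hinf hper hsupp
    have e : f = f (a : OnePoint F) • bInd v a k := by
      funext x
      induction x using OnePoint.rec with
      | infty => simp [hinf]
      | coe x =>
        by_cases hx : v (x - a) ≤ WithZero.exp k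
        · rw [Pi.smul_apply, bInd_pos hx, smul_eq_mul, mul_one]
          have := hper a (x - a) hx
          rwa [add_sub_cancel] at this
        · rw [Pi.smul_apply, bInd_neg hx, smul_eq_mul, mul_zero]
          exact hsupp x (by simpa using hx)
    rw [e]
    exact W.smul_mem _ (hW a k)
  | succ n ih =>
    intro a f hinf hper hsupp
    set s : F := ((ϖ ^ (-((k + n) + 1)) : Fˣ) : F) with hs
    have hvs : v s = WithZero.exp ((k + n) + 1) := v_zpow h _
    have hkn : (WithZero.exp k : ℤᵐ⁰) ≤ WithZero.exp (k + n) := by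
      rw [WithZero.exp_le_exp]; omega
    have h1 : (fun x => f x * bInd v a (k + n) x) ∈ W := by
      refine ih a _ (by simp) (fun x y hy => ?_) (fun x hx => ?_)
      · change f _ * bInd v a (k + n) _ = f _ * bInd v a (k + n) _
        rw [hper x y hy, bInd_periodic x y (hy.trans hkn)]
      · change f _ * bInd v a (k + n) _ = 0
        rw [bInd_neg hx, mul_zero]
    have h2 : (fun x => f x * bInd v (a + s) (k + n) x) ∈ W := by
      refine ih (a + s) _ (by simp) (fun x y hy => ?_) (fun x hx => ?_)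
      · change f _ * bInd v (a + s) (k + n) _ = f _ * bInd v (a + s) (k + n) _
        rw [hper x y hy, bInd_periodic x y (hy.trans hkn)]
      · change f _ * bInd v (a + s) (k + n) _ = 0
        rw [bInd_neg hx, mul_zero]
    have e : f = (fun x => f x * bInd v a (k + n) x) +
        (fun x => f x * bInd v (a + s) (k + n) x) := by
      funext x
      rw [Pi.add_apply]
      induction x using OnePoint.rec with
      | infty => simp [hinf]
      | coe x =>
        by_cases hx1 : v (x - a) ≤ WithZero.exp (k + n)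
        · have hx2 : ¬ v (x - (a + s)) ≤ WithZero.exp (k + n) := by
            intro hx2
            have e1 : s = (x - a) - (x - (a + s)) := by ring
            have h3 : v s ≤ WithZero.exp (k + n) := by
              rw [e1]
              exact (v.map_sub _ _).trans (max_le hx1 hx2)
            rw [hvs, WithZero.exp_le_exp] at h3
            omega
          rw [bInd_pos hx1, bInd_neg hx2]; ring
        · by_cases hx2 : v (x - (a + s)) ≤ WithZero.exp (k + n)
          · rw [bInd_neg hx1, bInd_pos hx2]; ring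
          · rw [bInd_neg hx1, bInd_neg hx2, mul_zero, add_zero]
            refine hsupp x (fun hx => ?_)
            have e3 : k + ((n + 1 : ℕ) : ℤ) = (k + n) + 1 := by push_cast; ring
            rw [e3] at hx
            rcases split h hx with h4 | h4
            · exact hx1 h4
            · rw [sub_sub] at h4
              exact hx2 h4
    rw [e]
    exact W.add_mem h1 h2

lemma smooth_le (h : Loc2 v ϖ) (W : Submodule ℂ (OnePoint F → ℂ)) (hW : ∀ a k, bInd v a k ∈ W)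
    (hc : ∀ c : ℂ, (fun _ => c) ∈ W) : P1smooth v ≤ W := by
  rintro φ ⟨m, hm⟩
  have h1 : (fun x => φ x - φ ∞) ∈ W := by
    refine gen h W hW (-(m : ℤ)) (2 * m) 0 _ (sub_self _) (fun x y hy => ?_) (fun x hx => ?_)
    · change φ _ - φ ∞ = φ _ - φ ∞
      rw [Km_periodic v hm x y hy]
    · change φ _ - φ ∞ = 0
      rw [sub_eq_zero]
      apply Km_inf v hm
      rw [sub_zero, not_le] at hx
      refine le_trans ?_ hx.le
      rw [WithZero.exp_le_exp]; push_cast; omega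
  have e : φ = (fun x => φ x - φ ∞) + (fun _ => φ ∞) := by
    funext x; simp
  rw [e]
  exact W.add_mem h1 (hc _)

/-- Step 3: averaging a function with nonpositive real part, not zero, vanishing near `∞`. -/
lemma grow (h : Loc2 v ϖ) (W : Submodule ℂ (OnePoint F → ℂ))
    (hinv : ∀ g, ∀ φ ∈ W, P1rep F g φ ∈ W) (m : ℕ) (b : F) (f0 : OnePoint F → ℂ) (hf0 : f0 ∈ W)
    (hinf : f0 ∞ = 0) (hre : ∀ x, (f0 x).re ≤ 0) (hb : (f0 (b : OnePoint F)).re ≤ -1)
    (hper : ∀ x y : F, v y ≤ WithZero.exp (-(m : ℤ)) →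
      f0 ((x + y : F) : OnePoint F) = f0 (x : OnePoint F))
    (hsupp : ∀ x : F, WithZero.exp (m : ℤ) < v x → f0 (x : OnePoint F) = 0) :
    ∀ n : ℕ, n ≤ 2 * m → ∃ f ∈ W, f ∞ = 0 ∧ (∀ x, (f x).re ≤ 0) ∧ (f (b : OnePoint F)).re ≤ -1 ∧
      (∀ x y : F, v y ≤ WithZero.exp (-(m : ℤ) + n) →
        f ((x + y : F) : OnePoint F) = f (x : OnePoint F)) ∧
      (∀ x : F, WithZero.exp (m : ℤ) < v x → f (x : OnePoint F) = 0) := by
  intro n
  induction n with
  | zero =>
    intro _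
    exact ⟨f0, hf0, hinf, hre, hb, by simpa using hper, hsupp⟩
  | succ n ih =>
    intro hn
    obtain ⟨f, hf, h1, h2, h3, h4, h5⟩ := ih (by omega)
    set k : ℤ := -(m : ℤ) + n with hk
    set s : F := ((ϖ ^ (-(k + 1)) : Fˣ) : F) with hs
    have hvs : v s = WithZero.exp (k + 1) := v_zpow h _
    refine ⟨f + P1rep F (upr s) f, W.add_mem hf (hinv _ _ hf), ?_, ?_, ?_, ?_, ?_⟩
    · rw [Pi.add_apply, P1_upr_inf, h1, add_zero]
    · intro x
      rw [Pi.add_apply, Complex.add_re]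
      exact add_nonpos (h2 x) (h2 _)
    · rw [Pi.add_apply, Complex.add_re]
      have : ((P1rep F (upr s)) f (b : OnePoint F)).re ≤ 0 := h2 _
      linarith
    · intro x y hy
      have e3 : -(m : ℤ) + ((n + 1 : ℕ) : ℤ) = k + 1 := by rw [hk]; push_cast; ring
      rw [e3] at hy
      rw [Pi.add_apply, Pi.add_apply, P1_upr_coe, P1_upr_coe]
      rcases split h hy with h6 | h6
      · have e4 : x + y - s = x - s + y := by ring
        rw [e4, h4 x y h6, h4 _ y h6]
      · have e4 : x + y = (x - s) + ((y - s) + 2 * s) := by ring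
        have e5 : x + y - s = x + (y - s) := by ring
        rw [e5, h4 x _ h6, e4, h4, add_comm]
        refine (v.map_add _ _).trans (max_le h6 ?_)
        rw [map_mul, hvs, ← lt_exp_succ]
        exact mul_lt_of_lt_one_left WithZero.exp_pos (v_two h)
    · intro x hx
      rw [Pi.add_apply, P1_upr_coe, h5 x hx, zero_add]
      apply h5
      have h7 : v s < v x := by
        rw [hvs]
        refine lt_of_le_of_lt ?_ hx
        rw [WithZero.exp_le_exp, hk]; omega
      rwa [Valuation.map_sub_eq_of_lt_left v h7]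

/-- Key theorem: an invariant space of smooth functions on `ℙ¹(F)` which contains the constants and
a nonconstant function contains all smooth functions. -/
theorem smooth_le_of_nonconst (h : Loc2 v ϖ) (W : Submodule ℂ (OnePoint F → ℂ))
    (hsm : W ≤ P1smooth v)
    (hinv : ∀ g, ∀ φ ∈ W, P1rep F g φ ∈ W) (hc : ∀ c : ℂ, (fun _ => c) ∈ W)
    (φ : OnePoint F → ℂ) (hφ : φ ∈ W) (hnc : ∃ p q, φ p ≠ φ q) : P1smooth v ≤ W := by
  classical
  -- choose p0, p1 with maximal difference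
  have hfin : (Set.range φ).Finite := finite_range h (hsm hφ)
  have hfin2 : (Set.range fun pq : OnePoint F × OnePoint F => ‖φ pq.2 - φ pq.1‖).Finite := by
    refine ((hfin.prod hfin).image (fun z : ℂ × ℂ => ‖z.2 - z.1‖)).subset ?_
    rintro _ ⟨⟨p, q⟩, rfl⟩
    exact ⟨(φ p, φ q), ⟨⟨p, rfl⟩, ⟨q, rfl⟩⟩, rfl⟩
  obtain ⟨M, ⟨⟨p0, p1⟩, hM⟩, hmax⟩ := hfin2.exists_maximalFor id _ ⟨_, ⟨(∞, ∞), rfl⟩⟩
  have hmax' : ∀ p q, ‖φ q - φ p‖ ≤ ‖φ p1 - φ p0‖ := by
    intro p q
    by_contra hcon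
    have := hmax (Set.mem_range_self (p, q)) (by
      simp only [id]
      rw [← hM]
      exact (not_le.1 hcon).le)
    simp only [id] at this
    rw [← hM] at this
    exact hcon this
  have hne : φ p1 - φ p0 ≠ 0 := by
    obtain ⟨p, q, hpq⟩ := hnc
    intro h0
    have := hmax' p q
    rw [h0, norm_zero] at this
    have h1 : φ q - φ p = 0 := norm_le_zero_iff.1 this
    exact hpq (sub_eq_zero.1 h1).symm
  set θ : OnePoint F → ℂ := (φ p1 - φ p0)⁻¹ • φ + (fun _ => -(φ p1 - φ p0)⁻¹ * φ p0 - 1) with hθ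
  have hθW : θ ∈ W := W.add_mem (W.smul_mem _ hφ) (hc _)
  have hθv : ∀ x, θ x = (φ x - φ p0) / (φ p1 - φ p0) - 1 := by
    intro x
    rw [hθ, Pi.add_apply, Pi.smul_apply, smul_eq_mul]
    ring
  have hθ1 : θ p1 = 0 := by rw [hθv, div_self hne, sub_self]
  have hθ0 : θ p0 = -1 := by rw [hθv]; simp
  have hθre : ∀ x, (θ x).re ≤ 0 := by
    intro x
    rw [hθv, Complex.sub_re, Complex.one_re]
    have h1 : ‖(φ x - φ p0) / (φ p1 - φ p0)‖ ≤ 1 := by
      rw [norm_div]
      exact div_le_one_of_le₀ (hmax' _ _) (norm_nonneg _)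
    have h2 := (Complex.re_le_norm ((φ x - φ p0) / (φ p1 - φ p0))).trans h1
    linarith
  -- move p1 to infinity
  obtain ⟨g, hg⟩ : ∃ g : GL (Fin 2) F, ∀ ψ : OnePoint F → ℂ, P1rep F g ψ ∞ = ψ p1 := by
    induction p1 using OnePoint.rec with
    | infty => exact ⟨1, fun ψ => by rw [P1_one]⟩
    | coe a =>
      refine ⟨wm * upr (-a), fun ψ => ?_⟩
      rw [P1_mul, P1_wm_inf, P1_upr_coe]
      simp
  set θ' := P1rep F g θ with hθ'
  have hθ'W : θ' ∈ W := hinv g θ hθW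
  have hθ'inf : θ' ∞ = 0 := by rw [hθ', hg, hθ1]
  have hθ're : ∀ x, (θ' x).re ≤ 0 := fun x => hθre _
  obtain ⟨b, hb⟩ : ∃ b : F, θ' (b : OnePoint F) = -1 := by
    have h1 : θ' (g • p0) = -1 := by
      change θ (g⁻¹ • g • p0) = -1
      rw [inv_smul_smul, hθ0]
    have key : ∀ p : OnePoint F, θ' p = -1 → ∃ b : F, θ' (b : OnePoint F) = -1 := by
      intro p hp
      induction p using OnePoint.rec with
      | infty => rw [hθ'inf] at hp; norm_num at hp
      | coe b => exact ⟨b, hp⟩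
    exact key _ h1
  obtain ⟨m, hm⟩ := hsm hθ'W
  obtain ⟨f, hf, h1, h2, h3, h4, h5⟩ := grow h W hinv m b θ' hθ'W hθ'inf hθ're
    (by rw [hb]; simp) (fun x y hy => Km_periodic v hm x y hy)
    (fun x hx => by rw [Km_inf v hm x hx.le, hθ'inf]) (2 * m) le_rfl
  have e0 : -(m : ℤ) + ((2 * m : ℕ) : ℤ) = m := by push_cast; ring
  rw [e0] at h4
  have hfb : f (b : OnePoint F) ≠ 0 := by
    intro h0
    rw [h0, Complex.zero_re] at h3
    norm_num at h3
  have hbm : v b ≤ WithZero.exp (m : ℤ) := by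
    by_contra hcon
    exact hfb (h5 b (not_le.1 hcon))
  have hball : bInd v 0 m ∈ W := by
    have e : bInd v 0 m = (f (b : OnePoint F))⁻¹ • f := by
      funext x
      induction x using OnePoint.rec with
      | infty => simp [h1]
      | coe x =>
        rw [Pi.smul_apply, smul_eq_mul]
        by_cases hx : v x ≤ WithZero.exp (m : ℤ)
        · rw [bInd_pos (by rwa [sub_zero])]
          have h6 := h4 b (x - b) ((v.map_sub _ _).trans (max_le hx hbm))
          rw [add_sub_cancel] at h6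
          rw [h6, inv_mul_cancel₀ hfb]
        · rw [bInd_neg (by rwa [sub_zero]), h5 x (not_le.1 hx), mul_zero]
    rw [e]
    exact W.smul_mem _ hf
  refine smooth_le h W (fun a k => ?_) hc
  rw [← bInd_upr, ← bInd_dg h m k]
  exact hinv _ _ (hinv _ _ hball)

end balls

end N999LL
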