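import Pool.Agent.N999.LL.Stein

/-!
# LL/01: the Steinberg representation of `GL_2(F)` is irreducible
-/

open scoped WithZero MatrixGroups
open OnePoint

noncomputable section

namespace N999LL

open N589LL

variable {F : Type} [Field F] {v : Valuation F ℤᵐ⁰}

/-- Preimage of a subspace of `StE v` in the space of all functions on `ℙ¹(F)`. -/
def pre (W : Submodule ℂ (StE v)) : Submodule ℂ (OnePoint F → ℂ) :=
  (W.comap (P1const v).mkQ).map (P1smooth v).subtype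

lemma mem_pre {W : Submodule ℂ (StE v)} {φ : OnePoint F → ℂ} :
    φ ∈ pre W ↔ ∃ h : φ ∈ P1smooth v, (P1const v).mkQ ⟨φ, h⟩ ∈ W := by
  constructor
  · rintro ⟨ψ, hψ, rfl⟩
    exact ⟨ψ.2, hψ⟩
  · rintro ⟨h, h'⟩
    exact ⟨⟨φ, h⟩, h', rfl⟩

lemma StRep_mk (g : GL (Fin 2) F) (φ : P1smooth v) :
    StRep v g ((P1const v).mkQ φ) = (P1const v).mkQ (P1smRep v g φ) := rfl

lemma P1smRep_coe (g : GL (Fin 2) F) (φ : P1smooth v) :
    ((P1smRep v g φ : P1smooth v) : OnePoint F → ℂ) = P1rep F g φ.1 := rfl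

lemma const_smooth (c : ℂ) : (fun _ : OnePoint F => c) ∈ P1smooth v := ⟨0, fun _ _ => rfl⟩

lemma const_mem_pre (W : Submodule ℂ (StE v)) (c : ℂ) : (fun _ => c) ∈ pre W := by
  refine mem_pre.2 ⟨const_smooth c, ?_⟩
  have : (P1const v).mkQ ⟨fun _ => c, const_smooth c⟩ = 0 := by
    rw [Submodule.mkQ_apply, Submodule.Quotient.mk_eq_zero]
    exact ⟨c, fun _ => rfl⟩
  rw [this]
  exact W.zero_mem

lemma mk_indO_ne : s0 v ≠ 0 := by
  intro h
  rw [s0, Submodule.Quotient.mk_eq_zero] at h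
  obtain ⟨c, hc⟩ := h
  have h1 := hc ∞
  have h2 := hc ((0 : F) : OnePoint F)
  have h3 : indO v ∞ = 0 := by
    simp [indO, ballO]
  have h4 : indO v ((0 : F) : OnePoint F) = 1 := by
    rw [indO, if_pos]
    exact ⟨0, rfl, by simp⟩
  simp only at h1 h2
  rw [h3] at h1
  rw [h4, ← h1] at h2
  exact one_ne_zero h2

theorem irred {ϖ : Fˣ} (h : Loc2 v ϖ) : Irred (StRep v) := by
  refine ⟨⟨⟨s0 v, 0, mk_indO_ne⟩⟩, fun W hW => ?_⟩
  by_cases hbot : W = ⊥
  · exact Or.inl hbot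
  right
  obtain ⟨x, hx, hx0⟩ := (Submodule.ne_bot_iff W).1 hbot
  obtain ⟨φ, rfl⟩ := (P1const v).mkQ_surjective x
  have hnc : ∃ p q, φ.1 p ≠ φ.1 q := by
    by_contra hcon
    push Not at hcon
    apply hx0
    rw [Submodule.mkQ_apply, Submodule.Quotient.mk_eq_zero]
    exact ⟨φ.1 ∞, fun x => hcon x ∞⟩
  have key : P1smooth v ≤ pre W := by
    refine smooth_le_of_nonconst h (pre W) ?_ ?_ (const_mem_pre W) φ.1 (mem_pre.2 ⟨φ.2, hx⟩) hnc
    · intro ψ hψ
      exact (mem_pre.1 hψ).1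
    · intro g ψ hψ
      obtain ⟨h1, h2⟩ := mem_pre.1 hψ
      refine mem_pre.2 ⟨P1smooth_stable v g h1, ?_⟩
      have := hW g _ h2
      rw [StRep_mk] at this
      exact this
  rw [Submodule.eq_top_iff']
  intro y
  obtain ⟨ψ, rfl⟩ := (P1const v).mkQ_surjective y
  obtain ⟨_, h2⟩ := mem_pre.1 (key ψ.2)
  exact h2

/-- LL/01. -/
theorem _root_.N589LL.TaskIrred_proof : N589LL.TaskIrred := fun _ _ _ _ h => irred h

end N999LL
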